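import Pool.Agent.X135.AG.E2

/-! MP_3242d6_co, Q1: if no `k`-subset of a finite field of characteristic 2 has stabilizer
exactly `S_{d,H}` in the group of affine maps, then `k` is a power of 2. -/

namespace Pool.Agent.Results.MP_3242d6_co.VanishingOnlyAtPowersOfTwo

/-- The maps `x ↦ a x + b` with `a ≠ 0`. -/
def AGL (F : Type*) [Field F] : Set (F → F) :=
  {g | ∃ a b : F, a ≠ 0 ∧ g = fun x => a * x + b}

/-- The stabilizer of `B` in `AGL F`. -/
def stabilizer {F : Type*} [Field F] (B : Set F) : Set (F → F) :=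
  {g | g ∈ AGL F ∧ g '' B = B}

/-- The group `S_{d,H}`: the maps `x ↦ z x + h` with `z ^ d = 1` and `h ∈ H`. -/
def S {F : Type*} [Field F] (d : ℕ) (H : AddSubgroup F) : Set (F → F) :=
  {g | ∃ z h : F, z ^ d = 1 ∧ h ∈ H ∧ g = fun x => z * x + h}

/-- The number of `k`-subsets whose stabilizer is exactly `S_{d,H}`. -/
noncomputable def exactCount {F : Type*} [Field F] (d : ℕ) (H : AddSubgroup F) (k : ℕ) : ℕ :=
  Nat.card {B : Finset F // B.card = k ∧ stabilizer (B : Set F) = S d H}

theorem result {F : Type*} [Field F] [Fintype F] (α : ℕ) (hq : Fintype.card F = 2 ^ α)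
    (d : ℕ) (hd : d ∣ 2 ^ α - 1) (H : AddSubgroup F)
    (hH : ∀ z : F, z ^ d = 1 → (fun x => z * x) '' (H : Set F) = H)
    (k : ℕ) (hk3 : 3 ≤ k) (hkq : k ≤ 2 ^ α / 2)
    (hmod : k ≡ 0 [MOD d * Nat.card H] ∨ k ≡ Nat.card H [MOD d * Nat.card H])
    (h0 : exactCount d H k = 0) : ∃ j : ℕ, k = 2 ^ j := by
  classical
  have : Fact (Nat.Prime 2) := ⟨Nat.prime_two⟩
  have : CharP F 2 := charP_of_card_eq_prime_pow hq
  by_contra hcon
  push Not at hcon
  have hH' : ∀ z : F, z ^ d = 1 → ∀ h ∈ H, z * h ∈ H := by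
    intro z hz h hh
    have h1 : z * h ∈ (fun x => z * x) '' (H : Set F) := ⟨h, hh, rfl⟩
    rw [hH z hz] at h1
    exact h1
  obtain ⟨B, hBk, hB⟩ := X135.AG.exists_exact (F := F) (d := d) (H := H)
    (by rw [hq]; exact hd) hH' hk3 (by rw [hq]; omega) hmod hcon
  have hd0 : 0 < d := X135.AG.pos_of_dvd (F := F) (by rw [hq]; exact hd)
  have himg : ∀ a b : F, a ≠ 0 →
      ((fun x => a * x + b) '' (B : Set F) = B ↔ ∀ x, x ∈ B ↔ a * x + b ∈ B) := by
    intro a b ha
    constructor
    · intro h x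
      constructor
      · intro hx
        have h1 : a * x + b ∈ (fun x => a * x + b) '' (B : Set F) := ⟨x, hx, rfl⟩
        rw [h] at h1
        exact h1
      · intro hx
        have h1 : a * x + b ∈ (B : Set F) := hx
        rw [← h] at h1
        obtain ⟨y, hy, hyx⟩ := h1
        have h2 : y = x := mul_left_cancel₀ ha (add_right_cancel hyx)
        rw [← h2]
        exact hy
    · intro h
      ext y
      constructor
      · rintro ⟨x, hx, rfl⟩
        exact (h x).1 hx
      · intro hy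
        refine ⟨(y - b) / a, ?_, ?_⟩
        · have h1 := h ((y - b) / a)
          have h2 : a * ((y - b) / a) + b = y := by field_simp; ring
          rw [h2] at h1
          exact h1.2 hy
        · simp only
          field_simp
          ring
  have hstab : stabilizer (B : Set F) = S d H := by
    ext g
    constructor
    · rintro ⟨⟨a, b, ha, rfl⟩, hg⟩
      have h1 := (hB a b ha).1 ((himg a b ha).1 hg)
      exact ⟨a, b, h1.1, h1.2, rfl⟩
    · rintro ⟨a, b, ha, hb, rfl⟩
      have ha0 : a ≠ 0 := by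
        rintro rfl
        rw [zero_pow hd0.ne'] at ha
        exact zero_ne_one ha
      exact ⟨⟨a, b, ha0, rfl⟩, (himg a b ha0).2 ((hB a b ha0).2 ⟨ha, hb⟩)⟩
  have hne : Nonempty {B : Finset F // B.card = k ∧ stabilizer (B : Set F) = S d H} :=
    ⟨⟨B, hBk, hstab⟩⟩
  have hpos : 0 < exactCount d H k := Nat.card_pos
  omega

end Pool.Agent.Results.MP_3242d6_co.VanishingOnlyAtPowersOfTwo
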